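import Pool.Agent.Y462.SS.St

set_option autoImplicit false

namespace Pool.Agent.Y331.SS

open Pool.Agent.Y462.SS

variable {X Γ : Type} [Group Γ]

/-- apply a homomorphism to all sections -/
def wmap {Δ : Type} [Group Δ] (f : Γ →* Δ) : Wr X Γ →* Wr X Δ where
  toFun a := ⟨fun x => f (a.s x), a.p⟩
  map_one' := by
    ext x
    · simp
    · simp
  map_mul' a b := by
    ext x
    · simp
    · simp

theorem wmap_s {Δ : Type} [Group Δ] (f : Γ →* Δ) (a : Wr X Γ) (x : X) :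
    (wmap f a).s x = f (a.s x) := rfl

theorem wmap_p {Δ : Type} [Group Δ] (f : Γ →* Δ) (a : Wr X Γ) :
    (wmap f a).p = a.p := rfl

/-- the homomorphism to the wreath product of the quotient -/
def phi (ψ : Γ →* Wr X Γ) (K : Subgroup Γ) [K.Normal] : Γ →* Wr X (Γ ⧸ K) :=
  (wmap (QuotientGroup.mk' K)).comp ψ

theorem mem_ker_phi (ψ : Γ →* Wr X Γ) (K : Subgroup Γ) [K.Normal] (γ : Γ) :
    γ ∈ (phi ψ K).ker ↔ (ψ γ).p = 1 ∧ ∀ x, (ψ γ).s x ∈ K := by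
  rw [MonoidHom.mem_ker]
  constructor
  · intro h
    refine ⟨?_, fun x => ?_⟩
    · have h1 := congrArg Wr.p h
      exact h1
    · have h1 := congrFun (congrArg Wr.s h) x
      have h2 : ((((ψ γ).s x : Γ)) : Γ ⧸ K) = 1 := h1
      exact (QuotientGroup.eq_one_iff _).1 h2
  · rintro ⟨h1, h2⟩
    apply Wr.ext
    · funext x
      exact (QuotientGroup.eq_one_iff _).2 (h2 x)
    · exact h1

/-- the sequence of kernels -/
def kk (ψ : Γ →* Wr X Γ) : ℕ → {K : Subgroup Γ // K.Normal}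
  | 0 => ⟨⊥, inferInstance⟩
  | n + 1 =>
    letI : (kk ψ n).1.Normal := (kk ψ n).2
    ⟨(phi ψ (kk ψ n).1).ker, inferInstance⟩

/-- the kernels -/
def Kn (ψ : Γ →* Wr X Γ) (n : ℕ) : Subgroup Γ := (kk ψ n).1

instance Kn_normal (ψ : Γ →* Wr X Γ) (n : ℕ) : (Kn ψ n).Normal := (kk ψ n).2

theorem Kn_zero (ψ : Γ →* Wr X Γ) : Kn ψ 0 = ⊥ := rfl

theorem Kn_succ (ψ : Γ →* Wr X Γ) (n : ℕ) : Kn ψ (n + 1) = (phi ψ (Kn ψ n)).ker := rfl

theorem mem_Kn_succ (ψ : Γ →* Wr X Γ) (n : ℕ) (γ : Γ) :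
    γ ∈ Kn ψ (n + 1) ↔ (ψ γ).p = 1 ∧ ∀ x, (ψ γ).s x ∈ Kn ψ n := by
  rw [Kn_succ, mem_ker_phi]

theorem Kn_le_succ (ψ : Γ →* Wr X Γ) (n : ℕ) : Kn ψ n ≤ Kn ψ (n + 1) := by
  induction n with
  | zero =>
    rw [Kn_zero]
    exact bot_le
  | succ n ih =>
    intro γ h
    rw [mem_Kn_succ] at h ⊢
    exact ⟨h.1, fun x => ih (h.2 x)⟩

theorem Kn_mono (ψ : Γ →* Wr X Γ) : Monotone (Kn ψ) := monotone_nat_of_le_succ (Kn_le_succ ψ)

theorem dies_iff [Finite X] (ψ : Γ →* Wr X Γ) (γ : Γ) : Dies ψ γ ↔ ∃ n, γ ∈ Kn ψ n := by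
  constructor
  · intro h
    induction h with
    | one => exact ⟨0, one_mem _⟩
    | step γ h1 _ ih =>
      choose n hn using ih
      obtain ⟨N, hN⟩ := (Set.finite_range n).bddAbove
      refine ⟨N + 1, (mem_Kn_succ ψ N γ).2 ⟨h1, fun x => ?_⟩⟩
      exact Kn_mono ψ (hN (Set.mem_range_self x)) (hn x)
  · rintro ⟨n, hn⟩
    induction n generalizing γ with
    | zero =>
      rw [Kn_zero, Subgroup.mem_bot] at hn
      rw [hn]
      exact Dies.one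
    | succ n ih =>
      rw [mem_Kn_succ] at hn
      exact Dies.step γ hn.1 fun x => ih _ (hn.2 x)

theorem C_Kn (hwr : S_WR) (C : ∀ (G : Type) [Group G], Prop) (hC : Closed C) [Finite X]
    (ψ : Γ →* Wr X Γ) (hΓ : C Γ) (n : ℕ) : C (Γ ⧸ Kn ψ n) := by
  induction n with
  | zero =>
    refine hC.of_injective (Γ ⧸ Kn ψ 0) Γ (QuotientGroup.lift (Kn ψ 0) (MonoidHom.id Γ) ?_) ?_ hΓ
    · intro x hx
      rw [Kn_zero, Subgroup.mem_bot] at hx
      exact hx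
    · rw [injective_iff_map_eq_one]
      intro a ha
      obtain ⟨y, rfl⟩ := QuotientGroup.mk_surjective a
      have h1 : y = 1 := ha
      rw [h1]
      rfl
  | succ n ih =>
    have h1 : C (Wr X (Γ ⧸ Kn ψ n)) := hwr C hC X _ inferInstance ih
    exact hC.of_injective (Γ ⧸ (phi ψ (Kn ψ n)).ker) _
      (QuotientGroup.kerLift (phi ψ (Kn ψ n))) (QuotientGroup.kerLift_injective _) h1

theorem t_lim (hwr : S_WR) : S_LIM := by
  intro C hC X Γ _ hX ψ hΓ K _ hK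
  have hle : ∀ n, Kn ψ n ≤ K := fun n γ h => (hK γ).2 ((dies_iff ψ γ).2 ⟨n, h⟩)
  refine hC.colim ℕ (fun i j => ⟨max i j, le_max_left i j, le_max_right i j⟩)
    (fun n => Γ ⧸ Kn ψ n)
    (fun i j h => QuotientGroup.map (Kn ψ i) (Kn ψ j) (MonoidHom.id Γ) (Kn_mono ψ h))
    (Γ ⧸ K) (fun i => QuotientGroup.map (Kn ψ i) K (MonoidHom.id Γ) (hle i)) ?_ ?_ ?_ ?_ ?_ ?_
  · intro i h x
    obtain ⟨y, rfl⟩ := QuotientGroup.mk_surjective x
    rfl
  · intro i j k h h' x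
    obtain ⟨y, rfl⟩ := QuotientGroup.mk_surjective x
    rfl
  · intro i j h x
    obtain ⟨y, rfl⟩ := QuotientGroup.mk_surjective x
    rfl
  · intro y
    obtain ⟨z, rfl⟩ := QuotientGroup.mk_surjective y
    exact ⟨0, QuotientGroup.mk z, rfl⟩
  · intro i x hx
    obtain ⟨y, rfl⟩ := QuotientGroup.mk_surjective x
    have h1 : ((y : Γ) : Γ ⧸ K) = 1 := hx
    have h2 : y ∈ K := (QuotientGroup.eq_one_iff _).1 h1
    obtain ⟨n, hn⟩ := (dies_iff ψ y).1 ((hK y).1 h2)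
    refine ⟨max i n, le_max_left i n, ?_⟩
    have h3 : y ∈ Kn ψ (max i n) := Kn_mono ψ (le_max_right i n) hn
    exact (QuotientGroup.eq_one_iff _).2 h3
  · intro n
    exact C_Kn hwr C hC ψ hΓ n

end Pool.Agent.Y331.SS
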